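import Pool.Agent.ARC.StmtsU

/-! # FFB: sup bound and order of FF (ARC, MP_160b6c_nt) -/

set_option autoImplicit false

namespace Pool.Agent.ARC.H65

open scoped BigOperators
open Pool.Agent.THS Pool.Agent.ZES Pool.Agent.ARC
open Pool.Agent.SZG (Ch Idx gam QS WX Wf Xf Mp FF Bx Row lft Zz IM)

/-- the quadratic form at `l y + q/l` -/
theorem yq_shift65 {g : ℕ} (τ : Matrix (Fin g) (Fin g) ℂ) (hs : τ.transpose = τ) (l : ℝ)
    (hl : l ≠ 0) (q y : Fin g → ℝ) :
    Yq τ (fun j => l * y j + q j / l)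
      = l ^ 2 * Yq τ y + 2 * (∑ i, q i * Yv τ y i) + Yq τ q / l ^ 2 := by
  have hsym : ∀ i j, (τ i j).im = (τ j i).im := by
    intro i j
    have h := congrFun (congrFun hs i) j
    rw [Matrix.transpose_apply] at h
    rw [h]
  have hsw : (∑ i, ∑ j, y i * (τ i j).im * q j) = ∑ i, ∑ j, q i * (τ i j).im * y j := by
    rw [Finset.sum_comm]
    refine Finset.sum_congr rfl fun i _ => Finset.sum_congr rfl fun j _ => ?_
    rw [hsym j i]
    ring
  have hqv : (∑ i, q i * Yv τ y i) = ∑ i, ∑ j, q i * (τ i j).im * y j := by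
    refine Finset.sum_congr rfl fun i _ => ?_
    unfold Yv
    rw [Finset.mul_sum]
    exact Finset.sum_congr rfl fun j _ => by ring
  have hexp : Yq τ (fun j => l * y j + q j / l)
      = l ^ 2 * Yq τ y + (∑ i, ∑ j, y i * (τ i j).im * q j)
        + (∑ i, ∑ j, q i * (τ i j).im * y j) + Yq τ q / l ^ 2 := by
    unfold Yq
    rw [Finset.mul_sum, Finset.sum_div, ← Finset.sum_add_distrib, ← Finset.sum_add_distrib,
      ← Finset.sum_add_distrib]
    refine Finset.sum_congr rfl fun i _ => ?_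
    rw [Finset.mul_sum, Finset.sum_div, ← Finset.sum_add_distrib, ← Finset.sum_add_distrib,
      ← Finset.sum_add_distrib]
    refine Finset.sum_congr rfl fun j _ => ?_
    field_simp
    ring
  rw [hexp, hsw, hqv]
  ring

/-- FFB -/
theorem ffb (sup : SupStmt) (fqp : Pool.Agent.SZG.FqpStmt) (fdf : Pool.Agent.SZG.FdfStmt) :
    FfbStmt := by
  intro g τ hτ l hl p q a
  have hlr : (l : ℝ) ≠ 0 := by
    have : (0 : ℝ) < (l : ℝ) := by exact_mod_cast hl
    exact this.ne'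
  have hlc : (l : ℂ) ≠ 0 := by
    have : l ≠ 0 := hl.ne'
    exact_mod_cast this
  refine ⟨?_, ?_⟩
  · intro w y hw
    have hW : ∀ i, ((l : ℂ) * w i + ((p i : ℂ) + ∑ j, τ i j * (q j : ℂ)) / (l : ℂ)).im
        = Yv τ (fun j => (l : ℝ) * y j + (q j : ℝ) / (l : ℝ)) i := by
      intro i
      have e1 : ((l : ℂ) * w i).im = (l : ℝ) * Yv τ y i := by
        rw [← hw i]
        simp [Complex.mul_im]
      have e2 : (((p i : ℂ) + ∑ j, τ i j * (q j : ℂ)) / (l : ℂ)).im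
          = (∑ j, (τ i j).im * (q j : ℝ)) / (l : ℝ) := by
        have h0 : (((p i : ℂ) + ∑ j, τ i j * (q j : ℂ)) / (l : ℂ)).im
            = ((p i : ℂ) + ∑ j, τ i j * (q j : ℂ)).im / (l : ℝ) := by
          have := Complex.div_natCast_im ((p i : ℂ) + ∑ j, τ i j * (q j : ℂ)) l
          exact this
        rw [h0]
        congr 1
        rw [Complex.add_im, Complex.im_sum, Complex.intCast_im, zero_add]
        refine Finset.sum_congr rfl fun j _ => ?_
        simp [Complex.mul_im]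
      rw [Complex.add_im, e1, e2]
      unfold Yv
      rw [Finset.mul_sum, Finset.sum_div, ← Finset.sum_add_distrib]
      refine Finset.sum_congr rfl fun j _ => ?_
      ring
    have hs := sup g τ hτ a (fun i => (l : ℂ) * w i + ((p i : ℂ) + ∑ j, τ i j * (q j : ℂ)) / (l : ℂ))
      (fun j => (l : ℝ) * y j + (q j : ℝ) / (l : ℝ)) hW
    have harg : (fun i => 2 * ((l : ℂ) * w i + ((p i : ℂ) + ∑ j, τ i j * (q j : ℂ)) / (l : ℂ)))
        = (fun r => 2 * (l : ℂ) * w r + 2 * ((p r : ℂ) + ∑ j, τ r j * (q j : ℂ)) / (l : ℂ)) := by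
      funext r
      ring
    rw [harg] at hs
    have hre : (16 * (Real.pi : ℂ) * Complex.I * ∑ i, (q i : ℂ) * w i).re
        = -(16 * Real.pi * ∑ i, (q i : ℝ) * Yv τ y i) := by
      have h1 : (∑ i, (q i : ℂ) * w i).im = ∑ i, (q i : ℝ) * Yv τ y i := by
        rw [Complex.im_sum]
        refine Finset.sum_congr rfl fun i _ => ?_
        rw [← hw i]
        simp [Complex.mul_im]
      rw [← h1]
      have h2 : 16 * (Real.pi : ℂ) * Complex.I * ∑ i, (q i : ℂ) * w i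
          = ((16 * Real.pi : ℝ) : ℂ) * (Complex.I * ∑ i, (q i : ℂ) * w i) := by
        push_cast
        ring
      rw [h2, Complex.re_ofReal_mul, Complex.I_mul_re]
      ring
    unfold FF
    rw [norm_mul, Complex.norm_exp, hre]
    rw [yq_shift65 τ hτ.1 (l : ℝ) hlr (fun m => (q m : ℝ)) y] at hs
    calc Real.exp (-(16 * Real.pi * ∑ i, (q i : ℝ) * Yv τ y i))
          * ‖Thc τ a (fun r => 2 * (l : ℂ) * w r
              + 2 * ((p r : ℂ) + ∑ j, τ r j * (q j : ℂ)) / (l : ℂ))‖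
        ≤ Real.exp (-(16 * Real.pi * ∑ i, (q i : ℝ) * Yv τ y i))
          * (2 ^ g * t0 τ * Real.exp (8 * Real.pi * ((l : ℝ) ^ 2 * Yq τ y
            + 2 * (∑ i, (q i : ℝ) * Yv τ y i) + Yq τ (fun m => (q m : ℝ)) / (l : ℝ) ^ 2))) :=
          mul_le_mul_of_nonneg_left hs (Real.exp_pos _).le
      _ = 2 ^ g * t0 τ * (Real.exp (-(16 * Real.pi * ∑ i, (q i : ℝ) * Yv τ y i))
          * Real.exp (8 * Real.pi * ((l : ℝ) ^ 2 * Yq τ y
            + 2 * (∑ i, (q i : ℝ) * Yv τ y i) + Yq τ (fun m => (q m : ℝ)) / (l : ℝ) ^ 2))) := by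
          ring
      _ = 2 ^ g * t0 τ * (Real.exp (8 * Real.pi * Yq τ (fun m => (q m : ℝ)) / (l : ℝ) ^ 2)
          * Real.exp (8 * Real.pi * (l : ℝ) ^ 2 * Yq τ y)) := by
          rw [← Real.exp_add, ← Real.exp_add]
          have he : -(16 * Real.pi * ∑ i, (q i : ℝ) * Yv τ y i)
              + 8 * Real.pi * ((l : ℝ) ^ 2 * Yq τ y + 2 * (∑ i, (q i : ℝ) * Yv τ y i)
                + Yq τ (fun m => (q m : ℝ)) / (l : ℝ) ^ 2)
              = 8 * Real.pi * Yq τ (fun m => (q m : ℝ)) / (l : ℝ) ^ 2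
                + 8 * Real.pi * (l : ℝ) ^ 2 * Yq τ y := by
            ring
          rw [he]
      _ = _ := by ring
  · show Differentiable ℂ (FF τ l p q a) ∧ ∀ (x : Fin g → ℂ) (P Q : Fin g → ℤ),
      FF τ l p q a (x + pr τ P Q) = Complex.exp (-(Real.pi * Complex.I * ((8 * l ^ 2 : ℕ) : ℂ)
        * ∑ i, ∑ j, (Q i : ℂ) * τ i j * (Q j : ℂ))
      - 2 * Real.pi * Complex.I * ((8 * l ^ 2 : ℕ) : ℂ) * ∑ i, (Q i : ℂ) * x i) * FF τ l p q a x
    refine ⟨fdf g τ hτ l p q a, ?_⟩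
    intro x P Q
    have h := fqp g τ hτ l p q a x P Q hl
    have hx : x + pr τ P Q = (fun i => x i + ((P i : ℂ) + ∑ j, τ i j * (Q j : ℂ))) := by
      funext i
      rfl
    rw [hx, h]
    have he : -(8 * (Real.pi : ℂ) * Complex.I * (l : ℂ) ^ 2
            * ∑ i, ∑ j, (Q i : ℂ) * τ i j * (Q j : ℂ))
          - 16 * (Real.pi : ℂ) * Complex.I * (l : ℂ) ^ 2 * ∑ i, (Q i : ℂ) * x i
        = -((Real.pi : ℂ) * Complex.I * ((8 * l ^ 2 : ℕ) : ℂ)
        * ∑ i, ∑ j, (Q i : ℂ) * τ i j * (Q j : ℂ))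
      - 2 * (Real.pi : ℂ) * Complex.I * ((8 * l ^ 2 : ℕ) : ℂ) * ∑ i, (Q i : ℂ) * x i := by
      push_cast
      ring
    rw [he]

end Pool.Agent.ARC.H65
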